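import Pool.Agent.H73.LPC.Stmts

/-!
Row CST of the board `lpc`
-/

set_option autoImplicit false

open Set Filter Topology MeasureTheory Metric

namespace Pool.LPC

open Pool.PHS

theorem cst_pw {h : ℂ × ℂ → ℂ} {z w : ℂ} (hd : DifferentiableAt ℂ h (z, w)) :
    HasDerivAt (fun t => h (z, t)) (pw h (z, w)) w := by
  have h1 : HasDerivAt (fun t : ℂ => ((z, t) : ℂ × ℂ)) ((0 : ℂ), (1 : ℂ)) w :=
    (hasDerivAt_const w z).prodMk (hasDerivAt_id w)
  have h2 := HasFDerivAt.comp_hasDerivAt w (f := fun t : ℂ => ((z, t) : ℂ × ℂ)) hd.hasFDerivAt h1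
  exact h2

theorem cst_pz {h : ℂ × ℂ → ℂ} {z w : ℂ} (hd : DifferentiableAt ℂ h (z, w)) :
    HasDerivAt (fun t => h (t, w)) (pz h (z, w)) z := by
  have h1 : HasDerivAt (fun t : ℂ => ((t, w) : ℂ × ℂ)) ((1 : ℂ), (0 : ℂ)) z :=
    (hasDerivAt_id z).prodMk (hasDerivAt_const z w)
  have h2 := HasFDerivAt.comp_hasDerivAt z (f := fun t : ℂ => ((t, w) : ℂ × ℂ)) hd.hasFDerivAt h1
  exact h2

theorem cst_sym {U : ℂ × ℂ → ℂ} {p : ℂ × ℂ} (hU : ContDiffAt ℂ 2 U p) :
    pw (pz U) p = pz (pw U) p := by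
  have h1 : DifferentiableAt ℂ (fderiv ℂ U) p :=
    (hU.fderiv_right (m := 1) (by norm_num)).differentiableAt (by norm_num)
  have hs : IsSymmSndFDerivAt ℂ U p := hU.isSymmSndFDerivAt (by simp)
  have key : ∀ v : ℂ × ℂ, HasFDerivAt (fun q => fderiv ℂ U q v)
      ((ContinuousLinearMap.apply ℂ ℂ v).comp (fderiv ℂ (fderiv ℂ U) p)) p := fun v =>
    (ContinuousLinearMap.apply ℂ ℂ v).hasFDerivAt.comp p h1.hasFDerivAt
  have e1 : pw (pz U) p = fderiv ℂ (fderiv ℂ U) p (0, 1) (1, 0) := by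
    show fderiv ℂ (fun q => fderiv ℂ U q (1, 0)) p (0, 1) = _
    rw [(key (1, 0)).fderiv]
    rfl
  have e2 : pz (pw U) p = fderiv ℂ (fderiv ℂ U) p (1, 0) (0, 1) := by
    show fderiv ℂ (fun q => fderiv ℂ U q (0, 1)) p (1, 0) = _
    rw [(key (0, 1)).fderiv]
    rfl
  rw [e1, e2]
  exact hs _ _

theorem CST_thm (hSM2 : SM2Stmt) : CSTStmt := by
  intro c w₀ r R R' U V k hr hrR hR' hU hV hne hrank w hw
  have hSo : IsOpen (ball c R ×ˢ ball w₀ R') := isOpen_ball.prod isOpen_ball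
  obtain ⟨hU2, hUz, hUw⟩ := hSM2 ℂ U _ hSo hU
  have hΩo : IsOpen ((ball c R ×ˢ ball w₀ R') ∩ U ⁻¹' {0}ᶜ) :=
    hU.continuousOn.isOpen_inter_preimage hSo isOpen_compl_singleton
  have hΩS : (ball c R ×ˢ ball w₀ R') ∩ U ⁻¹' {0}ᶜ ⊆ ball c R ×ˢ ball w₀ R' := inter_subset_left
  have hquo : ∀ h : ℂ × ℂ → ℂ, DifferentiableOn ℂ h (ball c R ×ˢ ball w₀ R') →
      DifferentiableOn ℂ (fun p => V p ^ k * h p / U p)
        ((ball c R ×ˢ ball w₀ R') ∩ U ⁻¹' {0}ᶜ) := by
    intro h hh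
    simp_rw [div_eq_mul_inv]
    exact (((hV.mono hΩS).fun_pow k).fun_mul (hh.mono hΩS)).fun_mul
      (DifferentiableOn.fun_inv (hU.mono hΩS) (fun p hp => hp.2))
  have hfd := hquo _ hUz
  have hgd := hquo _ hUw
  obtain ⟨-, -, hfw⟩ := hSM2 ℂ _ _ hΩo hfd
  set Ω := (ball c R ×ˢ ball w₀ R') ∩ U ⁻¹' {0}ᶜ with hΩ
  have hmem : ∀ z v : ℂ, ‖z - c‖ = r → v ∈ ball w₀ R' → (z, v) ∈ Ω := by
    intro z v hz hv
    refine ⟨⟨?_, hv⟩, hne z v hz hv⟩
    rw [mem_ball_iff_norm, hz]
    exact hrR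
  -- the key identity
  have key : ∀ p ∈ Ω, pw (fun p => V p ^ k * pz U p / U p) p =
      pz (fun p => V p ^ k * pw U p / U p) p := by
    rintro ⟨z, v⟩ hp
    have hpS := hΩS hp
    have hΩn : Ω ∈ 𝓝 (z, v) := hΩo.mem_nhds hp
    have hSn := hSo.mem_nhds hpS
    have dU : DifferentiableAt ℂ U (z, v) := hU.differentiableAt hSn
    have dV : DifferentiableAt ℂ V (z, v) := hV.differentiableAt hSn
    have dUz : DifferentiableAt ℂ (pz U) (z, v) := hUz.differentiableAt hSn
    have dUw : DifferentiableAt ℂ (pw U) (z, v) := hUw.differentiableAt hSn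
    have hU0 : U (z, v) ≠ 0 := hp.2
    have hsym := cst_sym (hU2.contDiffAt hSn)
    have hr1 := hrank _ hpS
    have a1 := cst_pw (hfd.differentiableAt hΩn)
    have a2 := (((cst_pw dV).pow k).mul (cst_pw dUz)).div (cst_pw dU) hU0
    have b1 := cst_pz (hgd.differentiableAt hΩn)
    have b2 := (((cst_pz dV).pow k).mul (cst_pz dUw)).div (cst_pz dU) hU0
    have e1 := a1.unique a2
    have e2 := b1.unique b2
    rw [e1, e2, hsym]
    simp only [Pi.pow_apply, Pi.mul_apply]
    congr 1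
    linear_combination ((k : ℂ) * V (z, v) ^ (k - 1) * U (z, v)) * hr1
  have hJ : ∀ w₁ ∈ ball w₀ R', HasDerivAt
      (fun v => ∮ z in C(c, r), V (z, v) ^ k * pz U (z, v) / U (z, v)) 0 w₁ := by
    intro w₁ hw₁
    obtain ⟨ε, hε, hεs⟩ : ∃ ε > 0, closedBall w₁ ε ⊆ ball w₀ R' :=
      nhds_basis_closedBall.mem_iff.1 (isOpen_ball.mem_nhds hw₁)
    have hcirc : ∀ θ : ℝ, ‖circleMap c r θ - c‖ = r := by
      intro θ
      simp [circleMap, abs_of_pos hr]
    have hK : IsCompact (sphere c r ×ˢ closedBall w₁ ε) :=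
      (isCompact_sphere c r).prod (isCompact_closedBall w₁ ε)
    have hKΩ : sphere c r ×ˢ closedBall w₁ ε ⊆ Ω := by
      rintro ⟨z, v⟩ ⟨hz, hv⟩
      exact hmem z v (mem_sphere_iff_norm.1 hz) (hεs hv)
    obtain ⟨M, hM⟩ := hK.exists_bound_of_continuousOn (hfw.continuousOn.mono hKΩ)
    have hcont : ∀ (f : ℂ × ℂ → ℂ), ContinuousOn f Ω → ∀ v ∈ ball w₀ R',
        Continuous (fun θ : ℝ => deriv (circleMap c r) θ • f (circleMap c r θ, v)) := by
      intro f hf v hv
      have c1 : Continuous (fun θ : ℝ => deriv (circleMap c r) θ) := by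
        simp only [deriv_circleMap]
        exact (continuous_circleMap 0 r).mul continuous_const
      have c2 : Continuous (fun θ : ℝ => f (circleMap c r θ, v)) :=
        hf.comp_continuous ((continuous_circleMap c r).prodMk continuous_const)
          (fun θ => hmem _ _ (hcirc θ) hv)
      exact c1.smul c2
    have hmain := intervalIntegral.hasDerivAt_integral_of_dominated_loc_of_deriv_le
      (μ := volume) (a := 0) (b := 2 * Real.pi) (𝕜 := ℂ) (s := closedBall w₁ ε)
      (F := fun (v : ℂ) (θ : ℝ) => deriv (circleMap c r) θ •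
        (fun p => V p ^ k * pz U p / U p) (circleMap c r θ, v))
      (F' := fun (v : ℂ) (θ : ℝ) => deriv (circleMap c r) θ •
        pw (fun p => V p ^ k * pz U p / U p) (circleMap c r θ, v))
      (x₀ := w₁) (bound := fun _ => r * M) (closedBall_mem_nhds w₁ hε) ?_ ?_ ?_ ?_ ?_ ?_
    · have h2 := hmain.2
      have h3 : (∫ θ in (0 : ℝ)..2 * Real.pi, deriv (circleMap c r) θ •
          pw (fun p => V p ^ k * pz U p / U p) (circleMap c r θ, w₁)) = 0 := by
        have h4 : (∮ z in C(c, r), pw (fun p => V p ^ k * pz U p / U p) (z, w₁)) = 0 := by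
          have h5 : (∮ z in C(c, r), pw (fun p => V p ^ k * pz U p / U p) (z, w₁)) =
              ∮ z in C(c, r), pz (fun p => V p ^ k * pw U p / U p) (z, w₁) := by
            refine circleIntegral.integral_congr hr.le ?_
            intro z hz
            exact key _ (hmem z w₁ (mem_sphere_iff_norm.1 hz) hw₁)
          rw [h5]
          refine circleIntegral.integral_eq_zero_of_hasDerivWithinAt hr.le
            (f := fun z => (fun p => V p ^ k * pw U p / U p) (z, w₁)) ?_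
          intro z hz
          exact (cst_pz (hgd.differentiableAt
            (hΩo.mem_nhds (hmem z w₁ (mem_sphere_iff_norm.1 hz) hw₁)))).hasDerivWithinAt
        exact h4
      rw [h3] at h2
      exact h2
    · filter_upwards [isOpen_ball.mem_nhds hw₁] with v hv
      exact (hcont _ hfd.continuousOn v hv).aestronglyMeasurable
    · exact (hcont _ hfd.continuousOn w₁ hw₁).intervalIntegrable _ _
    · exact (hcont _ hfw.continuousOn w₁ hw₁).aestronglyMeasurable
    · refine ae_of_all _ ?_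
      intro θ _ v hv
      rw [norm_smul]
      have h1 : ‖deriv (circleMap c r) θ‖ = r := by
        simp [deriv_circleMap, circleMap, abs_of_pos hr]
      rw [h1]
      exact mul_le_mul_of_nonneg_left (hM _ ⟨mem_sphere_iff_norm.2 (hcirc θ), hv⟩) hr.le
    · exact intervalIntegrable_const
    · refine ae_of_all _ ?_
      intro θ _ v hv
      exact HasDerivAt.fun_const_smul (deriv (circleMap c r) θ) (cst_pw (hfd.differentiableAt
        (hΩo.mem_nhds (hmem _ v (hcirc θ) (hεs hv)))))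
  exact isOpen_ball.is_const_of_deriv_eq_zero (convex_ball w₀ R').isPreconnected
    (fun v hv => (hJ v hv).differentiableAt.differentiableWithinAt)
    (fun v hv => (hJ v hv).deriv) hw (mem_ball_self hR')

end Pool.LPC
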