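import Pool.Agent.H73.LPC.Stmts

/-!
Row TWO of the board `lpc`
-/

set_option autoImplicit false

open Set Filter Topology MeasureTheory Metric

namespace Pool.LPC

open Pool.PHS

theorem TWO_thm (hASM : ASMStmt) (hATR : ATRStmt) (hFUL : FULStmt) : TWOStmt := by
  refine ⟨?_, ?_⟩
  · intro n D U f p hD hDc hDb hf hU hUD hUn hp hlim
    refine hASM n D f (fun _ => p) (fun j => j) hD hDc hDb hf (fun a b h => h)
      (hATR n D U f p hD hDc hDb hf hU hUD hUn hlim) (fun _ _ => hp) ?_
    intro z _
    have h1 : fderiv ℂ (fun _ : Cn n => p) z = 0 := fderiv_const_apply p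
    rw [h1]
    have h2 : LinearMap.range ((0 : Cn n →L[ℂ] Cn n)).toLinearMap = ⊥ := by
      rw [ContinuousLinearMap.toLinearMap_zero]
      exact LinearMap.range_zero
    rw [h2, finrank_bot]
    exact Nat.zero_le 1
  · intro D f g k hD hDc hDb hf hk hlim hg hpsc
    by_cases h : ∃ z ∈ D, jac g z ≠ 0
    · obtain ⟨z, hz, hj⟩ := h
      exact hFUL 2 D f g k z hD hDc hDb hf hk hlim hg hz hj
    · refine absurd (hASM 2 D f g k hD hDc hDb hf hk hlim hg ?_) hpsc
      intro z hz
      have hj : jac g z = 0 := by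
        by_contra hne
        exact h ⟨z, hz, hne⟩
      have hdet : LinearMap.det (fderiv ℂ g z).toLinearMap = 0 := hj
      have hlt := LinearMap.range_lt_top_of_det_eq_zero hdet
      have h3 := Submodule.finrank_lt hlt.ne
      have h4 : Module.finrank ℂ (Cn 2) = 2 := by simp
      rw [h4] at h3
      exact Nat.lt_succ_iff.1 h3

end Pool.LPC
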